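import Pool.Agent.Helper22.TW.Stmts

set_option autoImplicit false

/-!
# Square classes over the constants
-/

namespace Pool.Agent.Helper22.TW

open Pool.Agent.Helper14.BSC Polynomial

/-- a product of linear factors is a product of distinct linear factors times a square -/
theorem ksq_multiset {K : Type} [Field K] (s : Multiset K) : ∃ (R : Finset K) (Q : K[X]), Q ≠ 0 ∧
    (s.map (fun a => X - C a)).prod = (∏ v ∈ R, (X - C v)) * Q ^ 2 := by
  classical
  induction s using Multiset.induction_on with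
  | empty => exact ⟨∅, 1, one_ne_zero, by simp⟩
  | cons a s ih =>
    obtain ⟨R, Q, hQ, h⟩ := ih
    by_cases ha : a ∈ R
    · refine ⟨R.erase a, (X - C a) * Q, mul_ne_zero (X_sub_C_ne_zero a) hQ, ?_⟩
      rw [Multiset.map_cons, Multiset.prod_cons, h, ← Finset.mul_prod_erase R _ ha]
      ring
    · refine ⟨insert a R, Q, hQ, ?_⟩
      rw [Multiset.map_cons, Multiset.prod_cons, h, Finset.prod_insert ha]
      ring

/-- over an algebraically closed field every polynomial is a product of distinct linear factors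
times a square -/
theorem ksq_poly {K : Type} [Field K] [IsAlgClosed K] (H : K[X]) (hH : H ≠ 0) :
    ∃ (R : Finset K) (Q : K[X]), Q ≠ 0 ∧ H = (∏ v ∈ R, (X - C v)) * Q ^ 2 := by
  obtain ⟨R, Q, hQ, h⟩ := ksq_multiset H.roots
  obtain ⟨κ, hκ⟩ := IsAlgClosed.exists_pow_nat_eq H.leadingCoeff (n := 2) (by norm_num)
  have hκ0 : κ ≠ 0 := by
    rintro rfl
    apply hH
    rw [← leadingCoeff_eq_zero, ← hκ]
    norm_num
  refine ⟨R, C κ * Q, mul_ne_zero (C_ne_zero.2 hκ0) hQ, ?_⟩
  have h1 : H = C H.leadingCoeff * (H.roots.map (fun a => X - C a)).prod :=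
    (IsAlgClosed.splits H).eq_prod_roots
  conv_lhs => rw [h1]
  rw [h, ← hκ, C_pow]
  ring

section

variable {F k Ω : Type} [Field F] [Field k] [Field Ω] [Algebra F k] [Algebra F Ω] [Algebra k Ω]
  [IsScalarTower F k Ω]

/-- constants are fixed -/
theorem ksq_fix (D : Sec k Ω) (a : Acl F Ω) (g : GG k Ω) (hg : g ∈ Stab (KS F k Ω)) :
    D.s g (a : Ω) = (a : Ω) := by
  have h1 : IsAlgebraic F (a : Ω) := mem_algebraicClosure_iff.1 a.2
  have h2 : IsAlgebraic k (a : Ω) := h1.extendScalars (algebraMap F k).injective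
  have h3 : g ⟨(a : Ω), mem_algebraicClosure_iff.2 h2⟩ = ⟨(a : Ω), mem_algebraicClosure_iff.2 h2⟩ :=
    hg _ h1
  have h4 := D.ext g ⟨(a : Ω), mem_algebraicClosure_iff.2 h2⟩
  rw [h3] at h4
  exact h4

/-- polynomials in `t` with constant coefficients -/
theorem ksq_aeval (D : Sec k Ω) (t : k) (P : (Acl F Ω)[X]) :
    aeval (algebraMap k Ω t) P ∈ NN D (KS F k Ω) := by
  intro g hg
  rw [aeval_def]
  have h1 := hom_eval₂ P (algebraMap (Acl F Ω) Ω) (D.s g : Ω →+* Ω) (algebraMap k Ω t)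
  have h2 : ((D.s g : Ω →+* Ω)).comp (algebraMap (Acl F Ω) Ω) = algebraMap (Acl F Ω) Ω := by
    refine RingHom.ext fun a => ?_
    exact ksq_fix D a g hg
  have h3 : (D.s g : Ω →+* Ω) (algebraMap k Ω t) = algebraMap k Ω t := (D.s g).commutes t
  rw [h2, h3] at h1
  exact h1

end

theorem st_KSQ (hkum : ST_KUM) (hffc : ST_FFC) (htrb : ST_TRB) : ST_KSQ := by
  intro F k Ω _ _ _ _ _ _ _ _ _ t hgen D x hx hx0
  have : CharZero k := charZero_of_injective_algebraMap (algebraMap F k).injective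
  have : IsAlgClosed (Acl F Ω) := IsAlgClosure.isAlgClosed F
  obtain ⟨c, hc0, y, hy0, hxy⟩ := hkum k Ω D (KS F k Ω) 2 (by norm_num) ⟨x, hx⟩
    (fun h => hx0 (congrArg Subtype.val h))
  obtain ⟨A, B, hB, hAB⟩ := hffc F k Ω t hgen (c : Acl k Ω) c.2
  set T := algebraMap k Ω t with hT
  have hBT : aeval T B ≠ 0 := htrb F k Ω t hgen B hB
  have hcΩ : (((c : Acl k Ω)) : Ω) ≠ 0 := by
    intro h
    apply hc0
    exact Subtype.ext (Subtype.ext h)
  have hyΩ : (y : Ω) ≠ 0 := fun h => hy0 (Subtype.ext h)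
  have hA : A ≠ 0 := by
    rintro rfl
    rw [map_zero] at hAB
    exact mul_ne_zero hcΩ hBT hAB
  obtain ⟨R, Q, hQ, hH⟩ := ksq_poly (A * B) (mul_ne_zero hA hB)
  have hQT : aeval T Q ≠ 0 := htrb F k Ω t hgen Q hQ
  refine ⟨R, aeval T Q * (y : Ω) * (aeval T B)⁻¹, ?_, ?_, ?_⟩
  · exact mul_mem (mul_mem (ksq_aeval D t Q) y.2) (inv_mem (ksq_aeval D t B))
  · exact mul_ne_zero (mul_ne_zero hQT hyΩ) (inv_ne_zero hBT)
  · have h1 : x = ((c : Acl k Ω) : Ω) * (y : Ω) ^ 2 := congrArg Subtype.val hxy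
    have h2 : aeval T A * aeval T B = (∏ v ∈ R, (T - (v : Ω))) * aeval T Q ^ 2 := by
      have h3 := congrArg (aeval T) hH
      rw [map_mul, map_mul, map_pow, map_prod] at h3
      rw [h3]
      congr 1
      refine Finset.prod_congr rfl fun v _ => ?_
      rw [map_sub, aeval_X, aeval_C]
      rfl
    have h4 : ((c : Acl k Ω) : Ω) = aeval T A * (aeval T B)⁻¹ := by
      rw [← hAB]
      field_simp
    rw [h1, h4]
    have h5 : aeval T A * (aeval T B)⁻¹ * (y : Ω) ^ 2
        = (aeval T A * aeval T B) * ((y : Ω) * (aeval T B)⁻¹) ^ 2 := by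
      field_simp
    rw [h5, h2]
    ring

end Pool.Agent.Helper22.TW
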